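import Pool.Agent.helper2.Bis.Pot4
import Pool.Agent.helper15.Bis.Signs
import Pool.Agent.helper40.Bis.ChooseK
import Pool.Agent.helper71.Bis.Rounding

set_option autoImplicit false

namespace Pool.Agent.helper2.Bis

open Finset

/-- polynomial times exponential is small -/
theorem exp_small (a b : ℝ) (ha : 0 < a) (hb : 0 < b) (p : ℕ) :
    ∃ m0 : ℕ, ∀ m : ℕ, m0 ≤ m → (m : ℝ) ^ p * Real.exp (-(a * m)) ≤ b := by
  have h1 := Real.tendsto_pow_mul_exp_neg_atTop_nhds_zero p
  have h2 : Filter.Tendsto (fun m : ℕ => a * (m : ℝ)) Filter.atTop Filter.atTop :=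
    Filter.Tendsto.const_mul_atTop ha tendsto_natCast_atTop_atTop
  have h3 := h1.comp h2
  have h4 : ∀ᶠ m : ℕ in Filter.atTop, (a * (m : ℝ)) ^ p * Real.exp (-(a * m)) < a ^ p * b := by
    have := h3.eventually (gt_mem_nhds (show (0 : ℝ) < a ^ p * b by positivity))
    simpa using this
  obtain ⟨m0, hm0⟩ := Filter.eventually_atTop.mp h4
  refine ⟨m0, fun m hm => ?_⟩
  have h5 := hm0 m hm
  rw [mul_pow, mul_assoc] at h5
  exact (lt_of_mul_lt_mul_left h5 (by positivity)).le

/-- the core theorem -/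
theorem core (c : ℝ) (hc : 0 < c) (hc8 : c ≤ 1 / 8) : ∃ m0 : ℕ, ∀ m k : ℕ, m0 ≤ m → m ≤ 4 * k →
    (k : ℝ) ≤ (3 / 8 - 2 * c) * m →
    ∀ (V : Type) [Fintype V] (R : V → V → Prop), (∀ u v, R u v → R v u) → (∀ v, ¬ R v v) →
    (∀ v, m ≤ dg R v) → (∀ u v, R u v → dg R u = m ∨ dg R v = m) →
    ∀ J : ℝ, J = 1 ∨ J = -1 →
    ∃ e : V → ℝ, (∀ v, e v = 1 ∨ e v = -1) ∧ |∑ v, e v| ≤ 1 ∧
      ∀ v, k ≤ ((nb R v).filter (fun w => J * e v * e w = 1)).card := by
  classical
  obtain ⟨m1, hm1⟩ := exp_small (c ^ 2 / 8) (c / 2000000) (by positivity) (by positivity) 5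
  obtain ⟨m2, hm2⟩ := exists_nat_ge (4 / c ^ 2)
  refine ⟨max m1 (max m2 8), ?_⟩
  intro m k hm hmk hkm V _ R hsymm hirr hdeg hedge J hJ
  have hmm1 : m1 ≤ m := le_trans (le_max_left _ _) hm
  have hmm2 : m2 ≤ m := le_trans (le_trans (le_max_left _ _) (le_max_right _ _)) hm
  have hm8 : 8 ≤ m := le_trans (le_trans (le_max_right _ _) (le_max_right _ _)) hm
  have hm8R : (8 : ℝ) ≤ m := by exact_mod_cast hm8
  have hE := hm1 m hmm1
  have hm4 : 4 / c ^ 2 ≤ (m : ℝ) := le_trans hm2 (by exact_mod_cast hmm2)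
  have hk2 : 2 ≤ k := by omega
  have hkR : (0 : ℝ) ≤ k := Nat.cast_nonneg k
  have hkm' : (k : ℝ) ≤ 3 / 8 * m := by nlinarith
  have hkm'' : 8 * k ≤ 3 * m := by
    have : (8 * k : ℝ) ≤ 3 * m := by linarith
    exact_mod_cast this
  set Ex : ℝ := Real.exp (-(c ^ 2 / 8 * m)) with hEx
  have hEx0 : 0 < Ex := Real.exp_pos _
  -- the trivial case
  by_cases hV : IsEmpty V
  · refine ⟨fun _ => 1, fun _ => Or.inl rfl, ?_, fun v => (hV.false v).elim⟩
    simp
  rw [not_isEmpty_iff] at hV
  obtain ⟨v0⟩ := hV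
  -- hubs
  set D : ℕ := 216 * m ^ 2 with hDdef
  set H : Finset V := univ.filter (fun v => D ≤ dg R v) with hH
  have hmD : m < D := by rw [hDdef]; nlinarith
  have hHm : ∀ h ∈ H, ∀ v, R h v → v ∉ H ∧ dg R v = m := by
    intro h hh v hv
    have h1 : D ≤ dg R h := (mem_filter.mp hh).2
    have h2 : dg R v = m := by
      rcases hedge h v hv with h3 | h3
      · omega
      · exact h3
    refine ⟨?_, h2⟩
    intro h3
    have := (mem_filter.mp h3).2
    omega
  have hDle : ∀ v, v ∉ H → dg R v ≤ D := by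
    intro v hv
    by_contra hcon
    exact hv (mem_filter.mpr ⟨mem_univ _, by omega⟩)
  set T : Finset V := univ.filter (fun v => v ∉ H) with hT
  have hTH : T.card + H.card = Fintype.card V := by
    have := Finset.card_filter_add_card_filter_not (s := (univ : Finset V)) (fun v => v ∉ H)
    have e : univ.filter (fun v => ¬ (v ∉ H)) = H := by ext v; simp
    rw [e] at this
    exact this
  -- number of hubs
  have hHT : D * H.card ≤ m * T.card := by
    have h1 : H.card * D ≤ ∑ h ∈ H, dg R h := by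
      rw [← smul_eq_mul]
      exact Finset.card_nsmul_le_sum _ _ _ (fun h hh => (mem_filter.mp hh).2)
    have h2 : ∑ h ∈ H, dg R h = ∑ v ∈ T, (nb R v ∩ H).card := by
      have e1 : ∀ h ∈ H, dg R h = ∑ v ∈ T, if R h v then 1 else 0 := by
        intro h hh
        rw [Finset.sum_boole]
        unfold dg
        simp only [Nat.cast_id]
        congr 1
        ext v
        simp only [mem_nb, hT, mem_filter, mem_univ, true_and]
        exact ⟨fun hv => ⟨(hHm h hh v hv).1, hv⟩, fun hv => hv.2⟩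
      have e2 : ∀ v ∈ T, (nb R v ∩ H).card = ∑ h ∈ H, if R h v then 1 else 0 := by
        intro v _
        rw [Finset.sum_boole]
        simp only [Nat.cast_id]
        congr 1
        ext h
        simp only [mem_inter, mem_nb, mem_filter]
        exact ⟨fun hh => ⟨hh.2, hsymm _ _ hh.1⟩, fun hh => ⟨hsymm _ _ hh.2, hh.1⟩⟩
      rw [Finset.sum_congr rfl e1, Finset.sum_congr rfl e2, Finset.sum_comm]
    have h3 : ∑ v ∈ T, (nb R v ∩ H).card ≤ ∑ _v ∈ T, m := by
      apply Finset.sum_le_sum
      intro v _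
      by_cases hne : (nb R v ∩ H).Nonempty
      · obtain ⟨h, hh⟩ := hne
        have hh' := mem_inter.mp hh
        have hdm : dg R v = m := (hHm h hh'.2 v (hsymm _ _ (mem_nb.mp hh'.1))).2
        rw [← hdm]
        exact Finset.card_le_card Finset.inter_subset_left
      · rw [Finset.not_nonempty_iff_eq_empty.mp hne]
        simp
    rw [Finset.sum_const, smul_eq_mul] at h3
    calc D * H.card = H.card * D := mul_comm _ _
      _ ≤ _ := h1
      _ = _ := h2
      _ ≤ _ := h3
      _ = m * T.card := mul_comm _ _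
  have hHT2 : 216 * m * H.card ≤ T.card := by
    have : m * (216 * m * H.card) ≤ m * T.card := by
      calc m * (216 * m * H.card) = D * H.card := by rw [hDdef]; ring
        _ ≤ _ := hHT
    exact Nat.le_of_mul_le_mul_left this (by omega)
  have hHT3 : 72 * (8 * k * H.card) ≤ T.card := by
    calc 72 * (8 * k * H.card) = 72 * (8 * k) * H.card := by ring
      _ ≤ 72 * (3 * m) * H.card := by
          apply Nat.mul_le_mul_right
          omega
      _ = 216 * m * H.card := by ring
      _ ≤ _ := hHT2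
  have hHT4 : H.card ≤ T.card := by
    have h1 : 1 * H.card ≤ 216 * m * H.card := Nat.mul_le_mul_right _ (by omega)
    omega
  have hVm : m + 1 ≤ Fintype.card V := by
    have h1 := hdeg v0
    have h2 : (insert v0 (nb R v0)).card ≤ Fintype.card V := Finset.card_le_univ _
    rw [Finset.card_insert_of_notMem (fun h => hirr v0 (mem_nb.mp h))] at h2
    unfold dg at h1
    omega
  have hT4 : 4 ≤ T.card := by omega
  -- random signs on the hubs
  have hB : ∀ v : V, nb R v ∩ H ⊆ H := fun v => Finset.inter_subset_right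
  have hBc : ∀ v : V, (nb R v ∩ H).card ≤ m := by
    intro v
    by_cases hne : (nb R v ∩ H).Nonempty
    · obtain ⟨h, hh⟩ := hne
      have hh' := mem_inter.mp hh
      have hdm : dg R v = m := (hHm h hh'.2 v (hsymm _ _ (mem_nb.mp hh'.1))).2
      rw [← hdm]
      exact Finset.card_le_card Finset.inter_subset_left
    · rw [Finset.not_nonempty_iff_eq_empty.mp hne]
      simp
  obtain ⟨s0, hs0, hs0sum, hs0W⟩ := signs H (fun v : V => nb R v ∩ H) hB m (by omega) hBc
    (c / 2 * m) (by positivity)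
  set W : ℕ := Set.ncard {v : V | v ∉ H ∧ c / 4 * m < |(∑ h ∈ nb R v ∩ H, s0 h) / 2|} with hWdef
  have hW : (W : ℝ) ≤ 4 * Ex * T.card := by
    have h1 : W ≤ Set.ncard {i : V | c / 2 * m < |∑ h ∈ nb R i ∩ H, s0 h|} := by
      apply Set.ncard_le_ncard _ (Set.toFinite _)
      intro v hv
      have := hv.2
      rw [abs_div, abs_two] at this
      simp only [Set.mem_setOf_eq]
      linarith
    have h2 : (W : ℝ) ≤ Set.ncard {i : V | c / 2 * m < |∑ h ∈ nb R i ∩ H, s0 h|} := by
      exact_mod_cast h1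
    have h3 : -((c / 2 * m) ^ 2) / (2 * m) = -(c ^ 2 / 8 * m) := by
      field_simp
      ring
    rw [h3] at hs0W
    have h4 : (Fintype.card V : ℝ) ≤ 2 * T.card := by
      have : Fintype.card V ≤ 2 * T.card := by omega
      exact_mod_cast this
    calc (W : ℝ) ≤ _ := h2
      _ ≤ 2 * Ex * Fintype.card V := hs0W
      _ ≤ 2 * Ex * (2 * T.card) := mul_le_mul_of_nonneg_left h4 (by positivity)
      _ = _ := by ring
  set η : V → ℝ := fun v => (dg R v : ℝ) / 2 - k - c * dg R v with hη
  obtain ⟨s, q, hs, hsH, hq1, hq0, hx0, hx1, hhub, M, hM, hMF, hMfl, hMq⟩ :=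
    potential R hsymm hirr H J hJ m k (by omega) c hc hc8 hm4 hdeg
      (by
        intro h hh
        have h1 : D ≤ dg R h := (mem_filter.mp hh).2
        have h2 : 216 * k ≤ D := by rw [hDdef]; nlinarith
        omega)
      hHm η
      (by
        intro v _
        have hdv : (m : ℝ) ≤ dg R v := by exact_mod_cast hdeg v
        simp only [hη]
        nlinarith)
      s0 (fun h _ => hs0 h) W (le_refl _)
  -- finite sets
  set F0 : Finset V := univ.filter (fun v => v ∉ H ∧ s v ≠ 0) with hF0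
  set F1 : Finset V := univ.filter (fun v => v ∉ H ∧ s v = 0 ∧ q v ≠ 0) with hF1
  set Z : Finset V := univ.filter (fun v => v ∉ H ∧ s v = 0 ∧ q v = 0) with hZ
  have eF0 : Set.ncard {v : V | v ∉ H ∧ s v ≠ 0} = F0.card := by
    rw [← Set.ncard_coe_finset]
    congr 1
    ext v
    simp [hF0]
  have eF1 : Set.ncard {v : V | v ∉ H ∧ s v = 0 ∧ q v ≠ 0} = F1.card := by
    rw [← Set.ncard_coe_finset]
    congr 1
    ext v
    simp [hF1]
  rw [eF0] at hMF
  rw [eF1] at hMq
  have hTZ : T.card ≤ Z.card + F0.card + F1.card := by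
    have hsub : T ⊆ Z ∪ F0 ∪ F1 := by
      intro v hv
      have hvH : v ∉ H := (mem_filter.mp hv).2
      simp only [hZ, hF0, hF1, mem_union, mem_filter, mem_univ, true_and]
      tauto
    refine le_trans (Finset.card_le_card hsub) ?_
    refine le_trans (Finset.card_union_le _ _) ?_
    have := Finset.card_union_le Z F0
    omega
  -- size of the correction set
  obtain ⟨N, hN1, hN2, hNpar⟩ : ∃ N : ℕ, W + 4 * M + 1 ≤ N ∧ N ≤ W + 4 * M + 2 ∧
      (N ≤ Z.card → Even (Z.card - N)) := by
    rcases Nat.even_or_odd (Z.card - (W + 4 * M + 1)) with h | h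
    · exact ⟨W + 4 * M + 1, le_refl _, by omega, fun _ => h⟩
    · refine ⟨W + 4 * M + 2, by omega, le_refl _, fun hle => ?_⟩
      obtain ⟨r, hr⟩ := h
      exact ⟨r, by omega⟩
  have hNcase : (N ≤ 2 ∧ N ≤ Z.card) ∨ N * (D ^ 2 + 1) + 8 * k * H.card ≤ Z.card := by
    by_cases hW0 : W = 0
    · left
      have hM0 : M = 0 := by
        rw [hW0] at hM
        have : (M : ℝ) ≤ 0 := by simpa using hM
        exact_mod_cast le_antisymm this (Nat.cast_nonneg M)
      constructor
      · omega
      · omega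
    · right
      have hW1 : (1 : ℝ) ≤ W := by exact_mod_cast Nat.one_le_iff_ne_zero.mpr hW0
      have hNR : (N : ℝ) ≤ 6 * m / c * W := by
        have h1 : (N : ℝ) ≤ W + 4 * M + 2 := by exact_mod_cast hN2
        have h2 : (M : ℝ) ≤ 4 / 3 * (m * W / c) := by
          have : 4 / (3 * c) * m * W = 4 / 3 * (m * W / c) := by field_simp
          linarith
        have h3 : (64 : ℝ) * W ≤ m * W / c := by
          rw [le_div_iff₀ hc]
          have : (64 : ℝ) * c ≤ m := by linarith
          nlinarith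
        have h4 : 6 * m / c * W = 6 * (m * W / c) := by ring
        rw [h4]
        linarith
      have hDR : ((D : ℝ) ^ 2 + 2) ≤ 46658 * (m : ℝ) ^ 4 := by
        have h1 : (D : ℝ) = 216 * (m : ℝ) ^ 2 := by rw [hDdef]; push_cast; ring
        rw [h1]
        have h2 : (1 : ℝ) ≤ (m : ℝ) ^ 4 := one_le_pow₀ (by linarith)
        nlinarith
      have hND : (N : ℝ) * ((D : ℝ) ^ 2 + 2) ≤ 71 / 72 * T.card := by
        have hT0 : (0 : ℝ) ≤ T.card := Nat.cast_nonneg _
        calc (N : ℝ) * ((D : ℝ) ^ 2 + 2) ≤ (6 * m / c * W) * (46658 * (m : ℝ) ^ 4) := by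
              apply mul_le_mul hNR hDR (by positivity) (by positivity)
          _ ≤ (6 * m / c * (4 * Ex * T.card)) * (46658 * (m : ℝ) ^ 4) := by
              apply mul_le_mul_of_nonneg_right _ (by positivity)
              exact mul_le_mul_of_nonneg_left hW (by positivity)
          _ = 1119792 / c * ((m : ℝ) ^ 5 * Ex) * T.card := by ring
          _ ≤ 1119792 / c * (c / 2000000) * T.card := by
              apply mul_le_mul_of_nonneg_right _ hT0
              exact mul_le_mul_of_nonneg_left hE (by positivity)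
          _ = 1119792 / 2000000 * T.card := by
              field_simp
          _ ≤ 71 / 72 * T.card := by nlinarith
      have hND' : 72 * (N * (D ^ 2 + 2)) ≤ 71 * T.card := by
        have : (72 : ℝ) * ((N : ℝ) * ((D : ℝ) ^ 2 + 2)) ≤ 71 * T.card := by linarith
        exact_mod_cast this
      have h5 : N * (D ^ 2 + 2) = N * (D ^ 2 + 1) + N := by ring
      omega
  have hdisj : Disjoint H Z := by
    rw [Finset.disjoint_left]
    intro v hv hvZ
    exact (mem_filter.mp hvZ).2.1 hv
  obtain ⟨K, hKZ, hKc, hK2, hKX⟩ := Pool.Agent.helper40.Bis.chooseK R hsymm H Z hdisj D k hk2 hDle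
    (fun h => (nb R h).filter (fun w => J * s h * s w ≠ -1)) hhub N hNcase
  have hNZ : N ≤ Z.card := by
    rw [← hKc]
    exact Finset.card_le_card hKZ
  -- sum of the hub signs
  have hsumH : |∑ h ∈ H, s h| ≤ 1 + 2 * M := by
    have e : ∑ h ∈ H, s h = ∑ h ∈ H, s0 h + ∑ h ∈ H, (s h - s0 h) := by
      rw [← Finset.sum_add_distrib]
      apply Finset.sum_congr rfl
      intro h _
      ring
    have h1 : |∑ h ∈ H, (s h - s0 h)| ≤ 2 * M := by
      refine le_trans (Finset.abs_sum_le_sum_abs _ _) ?_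
      have h2 : ∀ h ∈ H, |s h - s0 h| ≤ 2 * (if s h ≠ s0 h then (1 : ℝ) else 0) := by
        intro h hh
        by_cases h' : s h = s0 h
        · rw [h']; simp
        · rw [if_pos h']
          have h3 : s h = 1 ∨ s h = -1 := by
            rcases hs h with h1 | h1 | h1
            · exact Or.inl h1
            · exact Or.inr h1
            · exact absurd h1 (hsH h hh)
          rcases h3 with h1 | h1 <;> rcases hs0 h with h2 | h2 <;> rw [h1, h2] <;> norm_num
      refine le_trans (Finset.sum_le_sum h2) ?_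
      rw [← Finset.mul_sum, Finset.sum_boole]
      have e2 : Set.ncard {h : V | h ∈ H ∧ s h ≠ s0 h} = (H.filter (fun h => s h ≠ s0 h)).card := by
        rw [← Set.ncard_coe_finset]
        congr 1
        ext v
        simp
      rw [e2] at hMfl
      have : ((H.filter (fun h => s h ≠ s0 h)).card : ℝ) ≤ M := by exact_mod_cast hMfl
      linarith
    rw [e]
    have h3 := abs_add_le (∑ h ∈ H, s0 h) (∑ h ∈ H, (s h - s0 h))
    linarith
  refine Pool.Agent.helper71.Bis.rounding R hsymm H J hJ m k D c hc hc8 hm4 hdeg hk2 ?_ hDle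
    (fun h hh v hv => (hHm h hh v hv).1) s q hs hsH hq1 hq0 hx0 hx1 K ?_ hK2 hKX ?_ ?_
    (max (2 * Real.exp (-(c ^ 2 * m / 2))) (Real.exp (-((k : ℝ) / 8))))
    (le_max_left _ _) (le_max_right _ _) ?_
  · rw [hDdef]; nlinarith
  · intro v hv
    exact (mem_filter.mp (hKZ hv)).2
  · have e : Set.ncard {v : V | v ∉ H ∧ s v = 0 ∧ q v = 0 ∧ v ∉ K} = Z.card - N := by
      have : {v : V | v ∉ H ∧ s v = 0 ∧ q v = 0 ∧ v ∉ K} = ((Z \ K : Finset V) : Set V) := by
        ext v
        simp [hZ]
        tauto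
      rw [this, Set.ncard_coe_finset, Finset.card_sdiff_of_subset hKZ, hKc]
    rw [e]
    exact hNpar hNZ
  · rw [eF0, eF1, hKc]
    have h1 : (F0.card : ℝ) ≤ M := by exact_mod_cast hMF
    have h2 : (F1.card : ℝ) ≤ W + M := by exact_mod_cast hMq
    have h3 : (W : ℝ) + 4 * M + 1 ≤ N := by exact_mod_cast hN1
    linarith
  · -- smallness of P0
    have hP0 : max (2 * Real.exp (-(c ^ 2 * m / 2))) (Real.exp (-((k : ℝ) / 8))) ≤ 2 * Ex := by
      apply max_le
      · apply mul_le_mul_of_nonneg_left _ (by norm_num)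
        apply Real.exp_le_exp.mpr
        have : 0 ≤ c ^ 2 * m := by positivity
        linarith
      · have h1 : Real.exp (-((k : ℝ) / 8)) ≤ Ex := by
          apply Real.exp_le_exp.mpr
          have h2 : (m : ℝ) ≤ 4 * k := by exact_mod_cast hmk
          have h3 : c ^ 2 ≤ 1 / 64 := by nlinarith
          nlinarith
        linarith
    have hDR : (2 * (D : ℝ) ^ 2 + 1) ≤ 93313 * (m : ℝ) ^ 4 := by
      have h1 : (D : ℝ) = 216 * (m : ℝ) ^ 2 := by rw [hDdef]; push_cast; ring
      rw [h1]
      have h2 : (1 : ℝ) ≤ (m : ℝ) ^ 4 := one_le_pow₀ (by linarith)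
      nlinarith
    have h45 : (m : ℝ) ^ 4 ≤ (m : ℝ) ^ 5 := pow_le_pow_right₀ (by linarith) (by norm_num)
    calc 4 * max (2 * Real.exp (-(c ^ 2 * m / 2))) (Real.exp (-((k : ℝ) / 8))) * (2 * (D : ℝ) ^ 2 + 1)
        ≤ 4 * (2 * Ex) * (93313 * (m : ℝ) ^ 4) := by
          apply mul_le_mul _ hDR (by positivity) (by positivity)
          exact mul_le_mul_of_nonneg_left hP0 (by norm_num)
      _ = 746504 * ((m : ℝ) ^ 4 * Ex) := by ring
      _ ≤ 746504 * ((m : ℝ) ^ 5 * Ex) := by
          apply mul_le_mul_of_nonneg_left _ (by norm_num)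
          exact mul_le_mul_of_nonneg_right h45 hEx0.le
      _ ≤ 746504 * (c / 2000000) := mul_le_mul_of_nonneg_left hE (by norm_num)
      _ ≤ 1 := by linarith

end Pool.Agent.helper2.Bis
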