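import Mathlib

/-!
# Degree-constrained bisections: basic definitions (helper2)

`nb R v` : the neighbours of `v` with respect to a relation `R` on a finite type,
`dg R v` : their number, `wt p ω` : the weight of `ω` for the product of Bernoulli
distributions with parameters `p i`, `Pr p A` : probability of the event `A`.
-/

set_option autoImplicit false

namespace Pool.Agent.helper2.Bis

open Classical in
/-- neighbours of `v` -/
noncomputable def nb {V : Type} [Fintype V] (R : V → V → Prop) (v : V) : Finset V :=
  Finset.univ.filter (fun w => R v w)

/-- degree of `v` -/
noncomputable def dg {V : Type} [Fintype V] (R : V → V → Prop) (v : V) : ℕ := (nb R v).card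

/-- weight of a 0/1 vector for independent Bernoulli variables with parameters `p i` -/
noncomputable def wt {ι : Type} [Fintype ι] (p : ι → ℝ) (ω : ι → Bool) : ℝ :=
  ∏ i, (if ω i = true then p i else 1 - p i)

open Classical in
/-- probability of the event `A` for independent Bernoulli variables with parameters `p i` -/
noncomputable def Pr {ι : Type} [Fintype ι] (p : ι → ℝ) (A : (ι → Bool) → Prop) : ℝ :=
  ∑ ω : ι → Bool, if A ω then wt p ω else 0

theorem mem_nb {V : Type} [Fintype V] {R : V → V → Prop} {v w : V} : w ∈ nb R v ↔ R v w := by
  classical
  simp [nb]

end Pool.Agent.helper2.Bis
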