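import Mathlib

set_option autoImplicit false

namespace Pool.Agent.helper2.Bis

/-- slope of the truncated Huber function -/
noncomputable def hy (A t : ℝ) : ℝ :=
  if t ≤ -(2 * A) then -1 else if t < -A then (t + A) / A else if t ≤ A then 0
  else if t ≤ 2 * A then (t - A) / A else 1

/-- truncated Huber function: `0` on `[-A, A]`, slope `±1` outside `[-2A, 2A]` -/
noncomputable def hh (A t : ℝ) : ℝ := A / 2 * (hy A t) ^ 2 + max (|t - A * hy A t| - A) 0

theorem hy_abs_le (A t : ℝ) (hA : 0 < A) : |hy A t| ≤ 1 := by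
  unfold hy
  split_ifs with h1 h2 h3 h4
  · simp
  · rw [abs_le]; constructor
    · rw [le_div_iff₀ hA]; linarith
    · rw [div_le_iff₀ hA]; linarith
  · simp
  · rw [abs_le]; constructor
    · rw [le_div_iff₀ hA]; linarith
    · rw [div_le_iff₀ hA]; linarith
  · simp

theorem hy_zero (A t : ℝ) (hA : 0 < A) (h : |t| ≤ A) : hy A t = 0 := by
  have h' := abs_le.mp h
  unfold hy
  rw [if_neg (by linarith), if_neg (by linarith), if_pos h'.2]

theorem hh_zero (A t : ℝ) (hA : 0 < A) (h : |t| ≤ A) : hh A t = 0 := by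
  unfold hh
  rw [hy_zero A t hA h]
  simp [h]

/-- subgradient property -/
theorem hy_sub (A t z : ℝ) (hA : 0 < A) :
    max (|t - A * hy A t| - A) 0 + hy A t * (z - (t - A * hy A t)) ≤ max (|z| - A) 0 := by
  have hz1 : |z| - A ≤ max (|z| - A) 0 := le_max_left _ _
  have hz2 : 0 ≤ max (|z| - A) 0 := le_max_right _ _
  have hz3 := neg_abs_le z
  have hz4 := le_abs_self z
  unfold hy
  split_ifs with h1 h2 h3 h4
  · have e : t - A * (-1) = t + A := by ring
    rw [e, abs_of_nonpos (by linarith), max_eq_left (by linarith)]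
    linarith
  · have e : t - A * ((t + A) / A) = -A := by field_simp; ring
    rw [e, abs_neg, abs_of_pos hA, sub_self, max_self]
    have h5 : (t + A) / A ≤ 0 := div_nonpos_of_nonpos_of_nonneg (by linarith) hA.le
    have h6 : -1 ≤ (t + A) / A := by rw [le_div_iff₀ hA]; linarith
    rcases le_total (-A) z with h | h
    · nlinarith
    · nlinarith
  · have e : t - A * 0 = t := by ring
    rw [e]
    have : |t| ≤ A := abs_le.mpr ⟨by linarith, h3⟩
    rw [max_eq_right (by linarith)]
    linarith
  · have e : t - A * ((t - A) / A) = A := by field_simp; ring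
    rw [e, abs_of_pos hA, sub_self, max_self]
    have h5 : 0 ≤ (t - A) / A := div_nonneg (by linarith) hA.le
    have h6 : (t - A) / A ≤ 1 := by rw [div_le_iff₀ hA]; linarith
    rcases le_total z A with h | h
    · nlinarith
    · nlinarith
  · have e : t - A * 1 = t - A := by ring
    rw [e, abs_of_nonneg (by linarith), max_eq_left (by linarith)]
    linarith

theorem hh_min (A t z : ℝ) (hA : 0 < A) : hh A t ≤ (t - z) ^ 2 / (2 * A) + max (|z| - A) 0 := by
  have h := hy_sub A t z hA
  unfold hh
  have h2 : A / 2 * (hy A t) ^ 2 - hy A t * (z - (t - A * hy A t)) ≤ (t - z) ^ 2 / (2 * A) := by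
    rw [le_div_iff₀ (by linarith)]
    nlinarith [sq_nonneg (t - z - A * hy A t)]
  linarith

theorem hh_nonneg (A t : ℝ) (hA : 0 < A) : 0 ≤ hh A t := by
  unfold hh
  have : 0 ≤ max (|t - A * hy A t| - A) 0 := le_max_right _ _
  positivity

theorem hh_smooth (A t D : ℝ) (hA : 0 < A) :
    hh A (t + D) ≤ hh A t + hy A t * D + D ^ 2 / (2 * A) := by
  have h := hh_min A (t + D) (t - A * hy A t) hA
  have e : (t + D - (t - A * hy A t)) ^ 2 / (2 * A)
      = A / 2 * (hy A t) ^ 2 + hy A t * D + D ^ 2 / (2 * A) := by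
    field_simp; ring
  rw [e] at h
  have e2 : hh A t = A / 2 * (hy A t) ^ 2 + max (|t - A * hy A t| - A) 0 := rfl
  linarith

theorem hh_lip (A t D : ℝ) (hA : 0 < A) : hh A (t + D) ≤ hh A t + |D| := by
  have h := hh_min A (t + D) (t - A * hy A t + D) hA
  have e : (t + D - (t - A * hy A t + D)) ^ 2 / (2 * A) = A / 2 * (hy A t) ^ 2 := by
    field_simp; ring
  rw [e] at h
  have h2 : max (|t - A * hy A t + D| - A) 0 ≤ max (|t - A * hy A t| - A) 0 + |D| := by
    apply max_le
    · have := abs_add_le (t - A * hy A t) D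
      have h3 := le_max_left (|t - A * hy A t| - A) 0
      linarith
    · have h3 := le_max_right (|t - A * hy A t| - A) 0
      have := abs_nonneg D
      linarith
  have e2 : hh A t = A / 2 * (hy A t) ^ 2 + max (|t - A * hy A t| - A) 0 := rfl
  linarith

theorem hh_le_abs (A t : ℝ) (hA : 0 < A) : hh A t ≤ |t| := by
  have h := hh_lip A 0 t hA
  rw [zero_add, hh_zero A 0 hA (by simp [hA.le])] at h
  linarith

theorem hh_ge (A t : ℝ) (hA : 0 < A) : |t| - 3 / 2 * A ≤ hh A t := by
  unfold hh
  have h1 := le_max_left (|t - A * hy A t| - A) 0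
  have h2 : |t| ≤ |t - A * hy A t| + A * |hy A t| := by
    have := abs_add_le (t - A * hy A t) (A * hy A t)
    rw [abs_mul, abs_of_pos hA] at this
    simpa using this
  have h3 : (hy A t) ^ 2 = |hy A t| ^ 2 := by rw [sq_abs]
  nlinarith [sq_nonneg (|hy A t| - 1)]

end Pool.Agent.helper2.Bis
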