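import Pool.Agent.helper2.Bis.Defs
import Pool.Agent.helper2.Bis.Huber

set_option autoImplicit false

namespace Pool.Agent.helper2.Bis

open Finset

section
variable {V : Type} [Fintype V] [DecidableEq V]

/-- pressure -/
noncomputable def fld (R : V → V → Prop) (J : ℝ) (s : V → ℝ) (v : V) : ℝ :=
  J / 2 * ∑ w ∈ nb R v, s w

/-- energy -/
noncomputable def En (R : V → V → Prop) (J : ℝ) (s : V → ℝ) : ℝ :=
  (∑ v, s v * fld R J s v) / 2

theorem fld_update (R : V → V → Prop) (J : ℝ) (s : V → ℝ) (v : V) (a : ℝ) (w : V) :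
    fld R J (Function.update s v a) w
      = fld R J s w + (if v ∈ nb R w then J / 2 * (a - s v) else 0) := by
  unfold fld
  by_cases h : v ∈ nb R w
  · rw [if_pos h, ← Finset.add_sum_erase (nb R w) (Function.update s v a) h,
      ← Finset.add_sum_erase (nb R w) s h]
    have : ∑ x ∈ (nb R w).erase v, Function.update s v a x = ∑ x ∈ (nb R w).erase v, s x := by
      apply Finset.sum_congr rfl
      intro x hx
      rw [Function.update_of_ne (Finset.ne_of_mem_erase hx)]
    rw [this, Function.update_self]
    ring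
  · rw [if_neg h, add_zero]
    congr 1
    apply Finset.sum_congr rfl
    intro x hx
    rw [Function.update_of_ne]
    rintro rfl
    exact h hx

omit [DecidableEq V] in
theorem sum_fld_symm (R : V → V → Prop) (hsymm : ∀ u v, R u v → R v u) (J : ℝ) (s t : V → ℝ) :
    ∑ v, s v * fld R J t v = ∑ v, t v * fld R J s v := by
  classical
  unfold fld
  have key : ∀ s t : V → ℝ, ∑ v, s v * (J / 2 * ∑ w ∈ nb R v, t w)
      = ∑ v, ∑ w, if R v w then J / 2 * (s v * t w) else 0 := by
    intro s t
    apply Finset.sum_congr rfl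
    intro v _
    unfold nb
    rw [Finset.sum_filter, Finset.mul_sum, Finset.mul_sum]
    apply Finset.sum_congr rfl
    intro w _
    split_ifs <;> ring
  rw [key, key, Finset.sum_comm]
  apply Finset.sum_congr rfl
  intro v _
  apply Finset.sum_congr rfl
  intro w _
  by_cases h : R v w
  · rw [if_pos h, if_pos (hsymm _ _ h)]; ring
  · rw [if_neg h, if_neg (fun h' => h (hsymm _ _ h'))]

theorem En_update (R : V → V → Prop) (hsymm : ∀ u v, R u v → R v u) (hirr : ∀ v, ¬ R v v)
    (J : ℝ) (s : V → ℝ) (v : V) (a : ℝ) :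
    En R J (Function.update s v a) = En R J s + (a - s v) * fld R J s v := by
  have hvv : v ∉ nb R v := fun h => hirr v (mem_nb.mp h)
  -- write update s v a = s + (a - s v) * delta_v
  set δ : ℝ := a - s v with hδ
  set e : V → ℝ := fun w => if w = v then 1 else 0 with he
  have hs : Function.update s v a = fun w => s w + δ * e w := by
    funext w
    by_cases h : w = v
    · subst h; simp [he, hδ]
    · simp [he, h]
  have hlin : ∀ w, fld R J (fun w => s w + δ * e w) w = fld R J s w + δ * fld R J e w := by
    intro w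
    unfold fld
    rw [Finset.sum_add_distrib, ← Finset.mul_sum]
    ring
  have hev : fld R J e v = 0 := by
    unfold fld
    have : ∑ w ∈ nb R v, e w = 0 := by
      apply Finset.sum_eq_zero
      intro w hw
      simp only [he]
      rw [if_neg]
      rintro rfl
      exact hvv hw
    rw [this, mul_zero]
  have hse : ∀ g : V → ℝ, ∑ w, e w * g w = g v := by
    intro g
    simp [he]
  have h1 : ∑ w, s w * fld R J e w = fld R J s v := by
    rw [sum_fld_symm R hsymm J s e, hse]
  unfold En
  rw [hs]
  have h2 : ∑ w, (s w + δ * e w) * fld R J (fun w => s w + δ * e w) w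
      = ∑ w, s w * fld R J s w + δ * ∑ w, s w * fld R J e w + δ * ∑ w, e w * fld R J s w
        + δ * δ * ∑ w, e w * fld R J e w := by
    simp_rw [hlin]
    rw [Finset.mul_sum, Finset.mul_sum, Finset.mul_sum, ← Finset.sum_add_distrib,
      ← Finset.sum_add_distrib, ← Finset.sum_add_distrib]
    apply Finset.sum_congr rfl
    intro w _
    ring
  rw [h2, h1, hse, hse, hev]
  ring

/-- local term of the potential -/
noncomputable def Tm (R : V → V → Prop) (H : Finset V) (c : ℝ) (s0 : V → ℝ) (u : V) (x y : ℝ) : ℝ :=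
  if u ∈ H then (if x = s0 u then 0 else 7 / 8 * (dg R u : ℝ))
  else if x = 0 then hh (c / 4 * dg R u) y else (1 / 4 + c) * dg R u

/-- the potential -/
noncomputable def Pot (R : V → V → Prop) (H : Finset V) (c : ℝ) (s0 : V → ℝ) (J : ℝ)
    (s : V → ℝ) : ℝ :=
  ∑ u, Tm R H c s0 u (s u) (fld R J s u) - En R J s

/-- change of the potential under a single change -/
theorem Pot_update (R : V → V → Prop) (hsymm : ∀ u v, R u v → R v u) (hirr : ∀ v, ¬ R v v)
    (H : Finset V) (c : ℝ) (s0 : V → ℝ) (J : ℝ) (s : V → ℝ) (v : V) (a : ℝ) :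
    Pot R H c s0 J (Function.update s v a) - Pot R H c s0 J s
      = Tm R H c s0 v a (fld R J s v) - Tm R H c s0 v (s v) (fld R J s v)
        - (a - s v) * fld R J s v
        + ∑ u ∈ nb R v, (Tm R H c s0 u (s u) (fld R J s u + J / 2 * (a - s v))
            - Tm R H c s0 u (s u) (fld R J s u)) := by
  have hvv : v ∉ nb R v := fun h => hirr v (mem_nb.mp h)
  unfold Pot
  rw [En_update R hsymm hirr]
  have h1 : ∀ s : V → ℝ, ∑ u, Tm R H c s0 u (s u) (fld R J s u)
      = Tm R H c s0 v (s v) (fld R J s v)
        + ∑ u ∈ nb R v, Tm R H c s0 u (s u) (fld R J s u)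
        + ∑ u ∈ (univ.erase v) \ nb R v, Tm R H c s0 u (s u) (fld R J s u) := by
    intro s
    rw [← Finset.add_sum_erase _ _ (mem_univ v), add_assoc]
    congr 1
    have hsub : nb R v ⊆ univ.erase v := by
      intro x hx
      rw [mem_erase]
      refine ⟨?_, mem_univ _⟩
      rintro rfl
      exact hvv hx
    rw [add_comm, Finset.sum_sdiff hsub]
  rw [h1 (Function.update s v a), h1 s]
  have h2 : fld R J (Function.update s v a) v = fld R J s v := by
    rw [fld_update, if_neg hvv, add_zero]
  have h3 : ∑ u ∈ nb R v, Tm R H c s0 u (Function.update s v a u)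
        (fld R J (Function.update s v a) u)
      = ∑ u ∈ nb R v, Tm R H c s0 u (s u) (fld R J s u + J / 2 * (a - s v)) := by
    apply Finset.sum_congr rfl
    intro u hu
    have huv : u ≠ v := by rintro rfl; exact hvv hu
    rw [Function.update_of_ne huv, fld_update, if_pos (mem_nb.mpr (hsymm _ _ (mem_nb.mp hu)))]
  have h4 : ∑ u ∈ (univ.erase v) \ nb R v, Tm R H c s0 u (Function.update s v a u)
        (fld R J (Function.update s v a) u)
      = ∑ u ∈ (univ.erase v) \ nb R v, Tm R H c s0 u (s u) (fld R J s u) := by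
    apply Finset.sum_congr rfl
    intro u hu
    rw [mem_sdiff, mem_erase] at hu
    rw [Function.update_of_ne hu.1.1, fld_update, if_neg, add_zero]
    intro h
    exact hu.2 (mem_nb.mpr (hsymm _ _ (mem_nb.mp h)))
  rw [h2, h3, h4, Function.update_self, Finset.sum_sub_distrib]
  ring

end

end Pool.Agent.helper2.Bis
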