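import Pool.Agent.helper2.Bis.Pot1

set_option autoImplicit false

namespace Pool.Agent.helper2.Bis

open Finset

section
variable {V : Type} [Fintype V] [DecidableEq V]

/-- fractional state -/
noncomputable def qf (R : V → V → Prop) (c J : ℝ) (s : V → ℝ) (u : V) : ℝ :=
  if s u = 0 then -(hy (c / 4 * dg R u) (fld R J s u)) / 4 else s u / 2

theorem qf_abs (R : V → V → Prop) (c J : ℝ) (hc : 0 < c) (hdeg : ∀ v, 1 ≤ dg R v) (s : V → ℝ)
    (u : V) (h : s u = 0) : |qf R c J s u| ≤ 1 / 4 := by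
  unfold qf
  rw [if_pos h]
  have h1 : (0 : ℝ) < c / 4 * dg R u := by
    have : (1 : ℝ) ≤ dg R u := by exact_mod_cast hdeg u
    positivity
  have := hy_abs_le (c / 4 * dg R u) (fld R J s u) h1
  rw [abs_le] at this ⊢
  constructor <;> linarith [this.1, this.2]

/-- the sum of changes over the neighbours -/
theorem nb_change (R : V → V → Prop) (H : Finset V) (c : ℝ) (hc : 0 < c) (s0 : V → ℝ) (J : ℝ)
    (hJ : J = 1 ∨ J = -1) (m : ℕ) (hm : 1 ≤ m) (hdeg : ∀ v, m ≤ dg R v)
    (s : V → ℝ) (hsH : ∀ h ∈ H, s h ≠ 0) (v : V) (δ : ℝ) :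
    ∑ u ∈ nb R v, (Tm R H c s0 u (s u) (fld R J s u + J / 2 * δ)
            - Tm R H c s0 u (s u) (fld R J s u))
      ≤ 2 * δ * (fld R J s v - J * ∑ w ∈ nb R v, qf R c J s w)
        + dg R v * (δ ^ 2 / (2 * (c * m))) := by
  have hJ2 : J ^ 2 = 1 := by rcases hJ with h | h <;> rw [h] <;> norm_num
  have hmR : (1 : ℝ) ≤ m := by exact_mod_cast hm
  have hterm : ∀ u ∈ nb R v, (Tm R H c s0 u (s u) (fld R J s u + J / 2 * δ)
            - Tm R H c s0 u (s u) (fld R J s u))
      ≤ 2 * δ * (J / 2 * s u - J * qf R c J s u) + δ ^ 2 / (2 * (c * m)) := by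
    intro u _
    by_cases h0 : s u = 0
    · have huH : u ∉ H := fun h => hsH u h h0
      have hdu : (m : ℝ) ≤ dg R u := by exact_mod_cast hdeg u
      have hA : (0 : ℝ) < c / 4 * dg R u := by
        have : (0 : ℝ) < dg R u := by linarith
        positivity
      unfold Tm
      rw [if_neg huH, if_pos h0, if_neg huH, if_pos h0]
      have h1 := hh_smooth (c / 4 * dg R u) (fld R J s u) (J / 2 * δ) hA
      have h2 : (J / 2 * δ) ^ 2 / (2 * (c / 4 * dg R u)) ≤ δ ^ 2 / (2 * (c * m)) := by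
        have e : (J / 2 * δ) ^ 2 / (2 * (c / 4 * dg R u)) = δ ^ 2 / (2 * (c * dg R u)) := by
          have : (J / 2 * δ) ^ 2 = δ ^ 2 / 4 := by
            calc (J / 2 * δ) ^ 2 = J ^ 2 * δ ^ 2 / 4 := by ring
              _ = δ ^ 2 / 4 := by rw [hJ2, one_mul]
          rw [this]
          have : (0 : ℝ) < dg R u := by linarith
          field_simp
        rw [e]
        apply div_le_div_of_nonneg_left (sq_nonneg _)
        · positivity
        · nlinarith
      have h3 : qf R c J s u = -(hy (c / 4 * dg R u) (fld R J s u)) / 4 := by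
        unfold qf; rw [if_pos h0]
      rw [h3, h0]
      have h4 : 2 * δ * (J / 2 * 0 - J * (-(hy (c / 4 * dg R u) (fld R J s u)) / 4))
          = hy (c / 4 * dg R u) (fld R J s u) * (J / 2 * δ) := by ring
      rw [h4]
      linarith
    · have e1 : Tm R H c s0 u (s u) (fld R J s u + J / 2 * δ)
            = Tm R H c s0 u (s u) (fld R J s u) := by
        unfold Tm
        by_cases huH : u ∈ H
        · rw [if_pos huH, if_pos huH]
        · rw [if_neg huH, if_neg h0, if_neg huH, if_neg h0]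
      rw [e1, sub_self]
      have e2 : qf R c J s u = s u / 2 := by unfold qf; rw [if_neg h0]
      rw [e2]
      have : 2 * δ * (J / 2 * s u - J * (s u / 2)) = 0 := by ring
      rw [this, zero_add]
      positivity
  refine le_trans (Finset.sum_le_sum hterm) (le_of_eq ?_)
  rw [Finset.sum_add_distrib, ← Finset.mul_sum, Finset.sum_sub_distrib, ← Finset.mul_sum,
    ← Finset.mul_sum, Finset.sum_const, nsmul_eq_mul]
  rfl

/-- master inequality -/
theorem master (R : V → V → Prop) (hsymm : ∀ u v, R u v → R v u) (hirr : ∀ v, ¬ R v v)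
    (H : Finset V) (c : ℝ) (hc : 0 < c) (s0 : V → ℝ) (J : ℝ)
    (hJ : J = 1 ∨ J = -1) (m : ℕ) (hm : 1 ≤ m) (hdeg : ∀ v, m ≤ dg R v)
    (s : V → ℝ) (hsH : ∀ h ∈ H, s h ≠ 0) (v : V) (a : ℝ)
    (hmin : Pot R H c s0 J s ≤ Pot R H c s0 J (Function.update s v a)) :
    0 ≤ Tm R H c s0 v a (fld R J s v) - Tm R H c s0 v (s v) (fld R J s v)
        + (a - s v) * fld R J s v - 2 * (a - s v) * (J * ∑ w ∈ nb R v, qf R c J s w)
        + dg R v * ((a - s v) ^ 2 / (2 * (c * m))) := by
  have h1 := Pot_update R hsymm hirr H c s0 J s v a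
  have h2 := nb_change R H c hc s0 J hJ m hm hdeg s hsH v (a - s v)
  linarith

/-- (M1) unforced vertices are within the tolerance -/
theorem M1 (R : V → V → Prop) (hsymm : ∀ u v, R u v → R v u) (hirr : ∀ v, ¬ R v v)
    (H : Finset V) (c : ℝ) (hc : 0 < c) (s0 : V → ℝ) (J : ℝ)
    (hJ : J = 1 ∨ J = -1) (m : ℕ) (hm : 4 / c ^ 2 ≤ m) (hc8 : c ≤ 1 / 8)
    (hdeg : ∀ v, m ≤ dg R v)
    (s : V → ℝ) (hsH : ∀ h ∈ H, s h ≠ 0) (v : V) (hv : s v = 0) (a : ℝ) (ha : a = 1 ∨ a = -1)
    (hmin : Pot R H c s0 J s ≤ Pot R H c s0 J (Function.update s v a)) :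
    a * (J * ∑ w ∈ nb R v, qf R c J s w) ≤ (1 / 8 + c) * dg R v := by
  have hvH : v ∉ H := fun h => hsH v h hv
  have hm1 : 1 ≤ m := by
    rcases Nat.eq_zero_or_pos m with h | h
    · rw [h, Nat.cast_zero] at hm
      have : 0 < 4 / c ^ 2 := by positivity
      linarith
    · exact h
  have hmR : (1 : ℝ) ≤ m := by exact_mod_cast hm1
  have hdv : (m : ℝ) ≤ dg R v := by exact_mod_cast hdeg v
  have hd0 : (0 : ℝ) < dg R v := by linarith
  have h1 := master R hsymm hirr H c hc s0 J hJ m hm1 hdeg s hsH v a hmin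
  have ha2 : a ^ 2 = 1 := by rcases ha with h | h <;> rw [h] <;> norm_num
  have ha0 : a ≠ 0 := by rcases ha with h | h <;> rw [h] <;> norm_num
  rw [hv, sub_zero, ha2] at h1
  unfold Tm at h1
  rw [if_neg hvH, if_neg ha0, if_neg hvH, if_pos rfl] at h1
  have hA : (0 : ℝ) < c / 4 * dg R v := by positivity
  have h2 := hh_ge (c / 4 * dg R v) (fld R J s v) hA
  have h3 : a * fld R J s v ≤ |fld R J s v| := by
    rcases ha with h | h <;> rw [h]
    · rw [one_mul]; exact le_abs_self _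
    · rw [neg_one_mul]; exact neg_le_abs _
  have h4 : 1 / (2 * (c * m)) ≤ c / 8 := by
    rw [div_le_iff₀ (by positivity)]
    have : 4 ≤ m * c ^ 2 := by
      rw [div_le_iff₀ (by positivity)] at hm; exact hm
    nlinarith
  have h5 : dg R v * (1 / (2 * (c * m))) ≤ dg R v * (c / 8) :=
    mul_le_mul_of_nonneg_left h4 hd0.le
  nlinarith

/-- (M2) forced vertices are not violated -/
theorem M2 (R : V → V → Prop) (hsymm : ∀ u v, R u v → R v u) (hirr : ∀ v, ¬ R v v)
    (H : Finset V) (c : ℝ) (hc : 0 < c) (s0 : V → ℝ) (J : ℝ)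
    (hJ : J = 1 ∨ J = -1) (m : ℕ) (hm : 4 / c ^ 2 ≤ m) (hc8 : c ≤ 1 / 8)
    (hdeg : ∀ v, m ≤ dg R v)
    (s : V → ℝ) (hs : ∀ v, s v = 1 ∨ s v = -1 ∨ s v = 0) (hsH : ∀ h ∈ H, s h ≠ 0)
    (v : V) (hvH : v ∉ H) (hv : s v ≠ 0)
    (hmin : Pot R H c s0 J s ≤ Pot R H c s0 J (Function.update s v (-s v))) :
    -((1 / 8 + c) * dg R v) ≤ s v * (J * ∑ w ∈ nb R v, qf R c J s w) := by
  classical
  have hm1 : 1 ≤ m := by
    rcases Nat.eq_zero_or_pos m with h | h
    · rw [h, Nat.cast_zero] at hm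
      have : 0 < 4 / c ^ 2 := by positivity
      linarith
    · exact h
  have hmR : (1 : ℝ) ≤ m := by exact_mod_cast hm1
  have hdv : (m : ℝ) ≤ dg R v := by exact_mod_cast hdeg v
  have hd0 : (0 : ℝ) < dg R v := by linarith
  have h1 := master R hsymm hirr H c hc s0 J hJ m hm1 hdeg s hsH v (-s v) hmin
  have hsv : s v = 1 ∨ s v = -1 := by
    rcases hs v with h | h | h
    · exact Or.inl h
    · exact Or.inr h
    · exact absurd h hv
  have hs2 : s v ^ 2 = 1 := by rcases hsv with h | h <;> rw [h] <;> norm_num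
  have hJabs : |J| = 1 := by rcases hJ with h | h <;> rw [h] <;> norm_num
  unfold Tm at h1
  rw [if_neg hvH, if_neg (neg_ne_zero.mpr hv), if_neg hvH, if_neg hv] at h1
  have e4 : (-s v - s v) ^ 2 = 4 := by
    calc (-s v - s v) ^ 2 = 4 * s v ^ 2 := by ring
      _ = 4 := by rw [hs2]; norm_num
  rw [e4] at h1
  have h4 : 4 / (2 * (c * m)) ≤ c / 2 := by
    rw [div_le_iff₀ (by positivity)]
    have : 4 ≤ m * c ^ 2 := by
      rw [div_le_iff₀ (by positivity)] at hm; exact hm
    nlinarith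
  have h5 : dg R v * (4 / (2 * (c * m))) ≤ dg R v * (c / 2) :=
    mul_le_mul_of_nonneg_left h4 hd0.le
  -- number of unforced neighbours
  set Z := (nb R v).filter (fun w => s w = 0) with hZ
  set N := (nb R v).filter (fun w => s w ≠ 0) with hN
  have hcard : (Z.card : ℝ) + N.card = dg R v := by
    have : Z.card + N.card = (nb R v).card := Finset.card_filter_add_card_filter_not _
    unfold dg
    exact_mod_cast this
  have hx : |J * ∑ w ∈ nb R v, qf R c J s w - fld R J s v| ≤ Z.card / 4 := by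
    have e : J * ∑ w ∈ nb R v, qf R c J s w - fld R J s v = J * ∑ w ∈ Z, qf R c J s w := by
      unfold fld
      have : ∑ w ∈ nb R v, qf R c J s w
          = ∑ w ∈ Z, qf R c J s w + ∑ w ∈ N, qf R c J s w :=
        (Finset.sum_filter_add_sum_filter_not _ _ _).symm
      rw [this]
      have h2 : ∑ w ∈ nb R v, s w = ∑ w ∈ Z, s w + ∑ w ∈ N, s w :=
        (Finset.sum_filter_add_sum_filter_not _ _ _).symm
      have h3 : ∑ w ∈ Z, s w = 0 := Finset.sum_eq_zero (fun w hw => (mem_filter.mp hw).2)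
      have h4 : ∑ w ∈ N, qf R c J s w = (∑ w ∈ N, s w) / 2 := by
        rw [Finset.sum_div]
        apply Finset.sum_congr rfl
        intro w hw
        unfold qf
        rw [if_neg (mem_filter.mp hw).2]
      rw [h2, h3, h4]
      ring
    rw [e, abs_mul, hJabs, one_mul]
    refine le_trans (Finset.abs_sum_le_sum_abs _ _) ?_
    have : ∑ w ∈ Z, |qf R c J s w| ≤ ∑ w ∈ Z, (1 / 4 : ℝ) := by
      apply Finset.sum_le_sum
      intro w hw
      exact qf_abs R c J hc (fun v => le_trans hm1 (hdeg v)) s w (mem_filter.mp hw).2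
    refine le_trans this ?_
    rw [Finset.sum_const, nsmul_eq_mul]
    linarith
  have hf : |fld R J s v| ≤ N.card / 2 := by
    unfold fld
    have h2 : ∑ w ∈ nb R v, s w = ∑ w ∈ Z, s w + ∑ w ∈ N, s w :=
      (Finset.sum_filter_add_sum_filter_not _ _ _).symm
    have h3 : ∑ w ∈ Z, s w = 0 := Finset.sum_eq_zero (fun w hw => (mem_filter.mp hw).2)
    rw [h2, h3, zero_add, abs_mul, abs_div, hJabs, abs_two]
    have : |∑ w ∈ N, s w| ≤ N.card := by
      refine le_trans (Finset.abs_sum_le_sum_abs _ _) ?_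
      have : ∑ w ∈ N, |s w| ≤ ∑ w ∈ N, (1 : ℝ) := by
        apply Finset.sum_le_sum
        intro w _
        rcases hs w with h | h | h <;> rw [h] <;> norm_num
      refine le_trans this ?_
      simp
    linarith
  set x := J * ∑ w ∈ nb R v, qf R c J s w with hxdef
  set f := fld R J s v with hfdef
  have hx' := abs_le.mp hx
  have hf' := abs_le.mp hf
  by_contra hcon
  push Not at hcon
  rcases hsv with h | h
  · rw [h] at h1 hcon
    nlinarith [hx'.1, hx'.2, hf'.1, hf'.2]
  · rw [h] at h1 hcon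
    nlinarith [hx'.1, hx'.2, hf'.1, hf'.2]

end

end Pool.Agent.helper2.Bis
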