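import Pool.Agent.helper2.Bis.Pot2

set_option autoImplicit false

namespace Pool.Agent.helper2.Bis

open Finset

section
variable {V : Type} [Fintype V] [DecidableEq V]

/-- (M3) hubs are happy -/
theorem M3 (R : V → V → Prop) (hsymm : ∀ u v, R u v → R v u) (hirr : ∀ v, ¬ R v v)
    (H : Finset V) (c : ℝ) (hc : 0 < c) (s0 : V → ℝ) (J : ℝ)
    (hJ : J = 1 ∨ J = -1) (hdeg : ∀ v, 1 ≤ dg R v)
    (s : V → ℝ) (hs : ∀ v, s v = 1 ∨ s v = -1 ∨ s v = 0) (hsH : ∀ h ∈ H, s h ≠ 0)
    (v : V) (hvH : v ∈ H)
    (hmin : Pot R H c s0 J s ≤ Pot R H c s0 J (Function.update s v (-s v))) :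
    (dg R v : ℝ) ≤ 16 * ((nb R v).filter (fun w => J * s v * s w ≠ -1)).card := by
  classical
  have hsv : s v = 1 ∨ s v = -1 := by
    rcases hs v with h | h | h
    · exact Or.inl h
    · exact Or.inr h
    · exact absurd h (hsH v hvH)
  have hJs : J * s v = 1 ∨ J * s v = -1 := by
    rcases hJ with h | h <;> rcases hsv with h' | h' <;> rw [h, h'] <;> norm_num
  have h1 := Pot_update R hsymm hirr H c s0 J s v (-s v)
  have hT : Tm R H c s0 v (-s v) (fld R J s v) - Tm R H c s0 v (s v) (fld R J s v)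
      ≤ 7 / 8 * dg R v := by
    unfold Tm
    rw [if_pos hvH, if_pos hvH]
    have hd : (0 : ℝ) ≤ 7 / 8 * dg R v := by positivity
    split_ifs <;> linarith
  have hsum : 2 * s v * fld R J s v + ∑ u ∈ nb R v,
        (Tm R H c s0 u (s u) (fld R J s u + J / 2 * (-s v - s v))
            - Tm R H c s0 u (s u) (fld R J s u))
      ≤ ∑ u ∈ nb R v, (if J * s v * s u ≠ -1 then (1 : ℝ) else -1) := by
    have e : 2 * s v * fld R J s v = ∑ u ∈ nb R v, J * s v * s u := by
      unfold fld
      rw [← Finset.mul_sum]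
      ring
    rw [e, ← Finset.sum_add_distrib]
    apply Finset.sum_le_sum
    intro u _
    by_cases h0 : s u = 0
    · have huH : u ∉ H := fun h => hsH u h h0
      have hA : (0 : ℝ) < c / 4 * dg R u := by
        have : (1 : ℝ) ≤ dg R u := by exact_mod_cast hdeg u
        positivity
      have hlip := hh_lip (c / 4 * dg R u) (fld R J s u) (J / 2 * (-s v - s v)) hA
      have habs : |J / 2 * (-s v - s v)| = 1 := by
        have : J / 2 * (-s v - s v) = -(J * s v) := by ring
        rw [this, abs_neg]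
        rcases hJs with h | h <;> rw [h] <;> norm_num
      unfold Tm
      rw [if_neg huH, if_pos h0, if_neg huH, if_pos h0, h0, mul_zero,
        if_pos (by norm_num : (0 : ℝ) ≠ -1)]
      linarith
    · have e1 : Tm R H c s0 u (s u) (fld R J s u + J / 2 * (-s v - s v))
            = Tm R H c s0 u (s u) (fld R J s u) := by
        unfold Tm
        by_cases huH : u ∈ H
        · rw [if_pos huH, if_pos huH]
        · rw [if_neg huH, if_neg h0, if_neg huH, if_neg h0]
      rw [e1, sub_self, add_zero]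
      have hsu : s u = 1 ∨ s u = -1 := by
        rcases hs u with h | h | h
        · exact Or.inl h
        · exact Or.inr h
        · exact absurd h h0
      by_cases h3 : J * s v * s u = -1
      · rw [if_neg (not_not.mpr h3), h3]
      · rw [if_pos h3]
        rcases hJs with h | h <;> rcases hsu with h' | h' <;> rw [h, h'] <;> norm_num
  have hcount : ∑ u ∈ nb R v, (if J * s v * s u ≠ -1 then (1 : ℝ) else -1)
      = 2 * ((nb R v).filter (fun w => J * s v * s w ≠ -1)).card - dg R v := by
    have : ∀ u ∈ nb R v, (if J * s v * s u ≠ -1 then (1 : ℝ) else -1)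
        = 2 * (if J * s v * s u ≠ -1 then (1 : ℝ) else 0) - 1 := by
      intro u _
      split_ifs <;> norm_num
    rw [Finset.sum_congr rfl this, Finset.sum_sub_distrib, ← Finset.mul_sum, Finset.sum_boole]
    simp [dg]
  rw [hcount] at hsum
  linarith

theorem fld_add (R : V → V → Prop) (J : ℝ) (s t : V → ℝ) (v : V) :
    fld R J (fun w => s w + t w) v = fld R J s v + fld R J t v := by
  unfold fld
  rw [Finset.sum_add_distrib]
  ring

/-- double counting of flipped hub neighbours -/
theorem fl_count (R : V → V → Prop) (hsymm : ∀ u v, R u v → R v u) (A B : Finset V) :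
    ∑ v ∈ A, ((nb R v ∩ B).card : ℝ) ≤ ∑ h ∈ B, (dg R h : ℝ) := by
  classical
  have h1 : ∀ v, ((nb R v ∩ B).card : ℝ) = ∑ h ∈ B, if R v h then (1 : ℝ) else 0 := by
    intro v
    rw [Finset.sum_boole]
    congr 2
    ext x
    simp only [mem_inter, mem_filter, mem_nb]
    tauto
  have h2 : ∀ h, (dg R h : ℝ) = ∑ v, if R v h then (1 : ℝ) else 0 := by
    intro h
    rw [Finset.sum_boole]
    unfold dg nb
    congr 2
    ext x
    simp only [mem_filter, mem_univ, true_and]
    exact ⟨hsymm _ _, hsymm _ _⟩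
  simp_rw [h1, h2]
  rw [Finset.sum_comm]
  apply Finset.sum_le_sum
  intro h _
  apply Finset.sum_le_sum_of_subset_of_nonneg (subset_univ _)
  intro i _ _
  split_ifs <;> norm_num

/-- field of the hubs at a vertex, in terms of the initial signs -/
theorem hub_field (R : V → V → Prop) (H : Finset V) (s0 : V → ℝ) (J : ℝ)
    (hJ : J = 1 ∨ J = -1) (s : V → ℝ) (hs : ∀ h ∈ H, s h = 1 ∨ s h = -1)
    (hs0 : ∀ h ∈ H, s0 h = 1 ∨ s0 h = -1) (v : V) :
    |fld R J (fun w => if w ∈ H then s w else 0) v|
      ≤ |(∑ h ∈ nb R v ∩ H, s0 h) / 2| + ((nb R v ∩ H.filter (fun h => s h ≠ s0 h)).card : ℝ) := by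
  classical
  have hJabs : |J| = 1 := by rcases hJ with h | h <;> rw [h] <;> norm_num
  unfold fld
  have e1 : ∑ w ∈ nb R v, (if w ∈ H then s w else 0) = ∑ w ∈ nb R v ∩ H, s w := by
    rw [← Finset.sum_filter, Finset.filter_mem_eq_inter]
  rw [e1]
  have e2 : ∑ w ∈ nb R v ∩ H, s w = ∑ w ∈ nb R v ∩ H, s0 w + ∑ w ∈ nb R v ∩ H, (s w - s0 w) := by
    rw [← Finset.sum_add_distrib]
    apply Finset.sum_congr rfl
    intro w _
    ring
  have e3 : |∑ w ∈ nb R v ∩ H, (s w - s0 w)|
      ≤ 2 * ((nb R v ∩ H.filter (fun h => s h ≠ s0 h)).card : ℝ) := by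
    refine le_trans (Finset.abs_sum_le_sum_abs _ _) ?_
    have : ∀ w ∈ nb R v ∩ H, |s w - s0 w| ≤ 2 * (if s w ≠ s0 w then (1 : ℝ) else 0) := by
      intro w hw
      have hwH := (mem_inter.mp hw).2
      by_cases h : s w = s0 w
      · rw [h]; simp
      · rw [if_pos h]
        rcases hs w hwH with h1 | h1 <;> rcases hs0 w hwH with h2 | h2 <;> rw [h1, h2] <;> norm_num
    refine le_trans (Finset.sum_le_sum this) ?_
    rw [← Finset.mul_sum, Finset.sum_boole]
    have : (nb R v ∩ H).filter (fun w => s w ≠ s0 w) = nb R v ∩ H.filter (fun h => s h ≠ s0 h) := by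
      ext x; simp only [mem_filter, mem_inter]; tauto
    rw [this]
  rw [abs_mul, abs_div, hJabs, abs_two, e2]
  have h4 := abs_add_le (∑ w ∈ nb R v ∩ H, s0 w) (∑ w ∈ nb R v ∩ H, (s w - s0 w))
  rw [abs_div, abs_two]
  linarith

/-- decomposition of the energy into T-T and T-H parts (no H-H edges) -/
theorem En_split (R : V → V → Prop) (hsymm : ∀ u v, R u v → R v u) (H : Finset V)
    (hHH : ∀ h ∈ H, ∀ v, R h v → v ∉ H) (J : ℝ) (s : V → ℝ) :
    En R J s = (∑ v, (if v ∈ H then 0 else s v) * fld R J (fun w => if w ∈ H then 0 else s w) v) / 2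
      + ∑ v, (if v ∈ H then 0 else s v) * fld R J (fun w => if w ∈ H then s w else 0) v := by
  classical
  set sT : V → ℝ := fun w => if w ∈ H then 0 else s w with hsT
  set sH : V → ℝ := fun w => if w ∈ H then s w else 0 with hsH
  have hs : s = fun w => sT w + sH w := by
    funext w
    by_cases h : w ∈ H <;> simp [hsT, hsH, h]
  have hHH0 : ∑ v, sH v * fld R J sH v = 0 := by
    apply Finset.sum_eq_zero
    intro v _
    by_cases h : v ∈ H
    · have : fld R J sH v = 0 := by
        unfold fld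
        have : ∑ w ∈ nb R v, sH w = 0 := by
          apply Finset.sum_eq_zero
          intro w hw
          simp only [hsH]
          rw [if_neg (hHH v h w (mem_nb.mp hw))]
        rw [this, mul_zero]
      rw [this, mul_zero]
    · simp [hsH, h]
  have hsym := sum_fld_symm R hsymm J sH sT
  have e : ∑ v, s v * fld R J s v
      = ∑ v, sT v * fld R J sT v + ∑ v, sT v * fld R J sH v + ∑ v, sH v * fld R J sT v
        + ∑ v, sH v * fld R J sH v := by
    rw [← Finset.sum_add_distrib, ← Finset.sum_add_distrib, ← Finset.sum_add_distrib]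
    apply Finset.sum_congr rfl
    intro v _
    have h1 : fld R J s v = fld R J sT v + fld R J sH v := by
      conv_lhs => rw [hs]
      rw [fld_add]
    have h2 : s v = sT v + sH v := congrFun hs v
    rw [h1, h2]
    ring
  unfold En
  rw [e, hHH0, hsym]
  ring

end

end Pool.Agent.helper2.Bis
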