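import Pool.Agent.helper2.Bis.Potential

set_option autoImplicit false

namespace Pool.Agent.helper2.Bis

open Finset

section
variable {V : Type} [Fintype V] [DecidableEq V]

/-- field of the initial state -/
theorem fld_init (R : V → V → Prop) (H : Finset V) (J : ℝ) (hJ : J = 1 ∨ J = -1) (s0 : V → ℝ) (v : V) :
    |fld R J (fun w => if w ∈ H then s0 w else 0) v| = |(∑ h ∈ nb R v ∩ H, s0 h) / 2| := by
  classical
  have hJabs : |J| = 1 := by rcases hJ with h | h <;> rw [h] <;> norm_num
  unfold fld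
  have e1 : ∑ w ∈ nb R v, (if w ∈ H then s0 w else 0) = ∑ w ∈ nb R v ∩ H, s0 w := by
    rw [← Finset.sum_filter, Finset.filter_mem_eq_inter]
  rw [e1, abs_mul, abs_div, abs_div, hJabs]
  ring

/-- upper bound for the potential of the initial state -/
theorem Pot_upper (R : V → V → Prop) (hsymm : ∀ u v, R u v → R v u)
    (H : Finset V) (J : ℝ) (hJ : J = 1 ∨ J = -1) (m : ℕ) (hm : 1 ≤ m) (c : ℝ) (hc : 0 < c)
    (hdeg : ∀ v, m ≤ dg R v)
    (hHm : ∀ h ∈ H, ∀ v, R h v → v ∉ H ∧ dg R v = m) (s0 : V → ℝ)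
    (hs0 : ∀ h ∈ H, s0 h = 1 ∨ s0 h = -1) :
    Pot R H c s0 J (fun w => if w ∈ H then s0 w else 0)
      ≤ m / 2 * (univ.filter (fun v : V => v ∉ H ∧ c / 4 * m < |(∑ h ∈ nb R v ∩ H, s0 h) / 2|)).card := by
  classical
  have hmR : (1 : ℝ) ≤ m := by exact_mod_cast hm
  set s00 : V → ℝ := fun w => if w ∈ H then s0 w else 0 with hs00
  set W0 := univ.filter (fun v : V => v ∉ H ∧ c / 4 * m < |(∑ h ∈ nb R v ∩ H, s0 h) / 2|) with hW0
  have hE : En R J s00 = 0 := by
    rw [En_split R hsymm H (fun h hh v hv => (hHm h hh v hv).1)]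
    have h1 : ∀ v, (if v ∈ H then (0 : ℝ) else s00 v) = 0 := by
      intro v
      by_cases h : v ∈ H
      · rw [if_pos h]
      · rw [if_neg h]; simp only [hs00]; rw [if_neg h]
    simp_rw [h1]
    simp
  unfold Pot
  rw [hE, sub_zero]
  have h2 : ∀ u, Tm R H c s0 u (s00 u) (fld R J s00 u) ≤ if u ∈ W0 then (m : ℝ) / 2 else 0 := by
    intro u
    by_cases huH : u ∈ H
    · unfold Tm
      rw [if_pos huH]
      have : s00 u = s0 u := by simp only [hs00]; rw [if_pos huH]
      rw [if_pos this]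
      split_ifs <;> positivity
    · have h0 : s00 u = 0 := by simp only [hs00]; rw [if_neg huH]
      unfold Tm
      rw [if_neg huH, if_pos h0]
      have hdu : (m : ℝ) ≤ dg R u := by exact_mod_cast hdeg u
      have hA : (0 : ℝ) < c / 4 * dg R u := by
        have : (0 : ℝ) < dg R u := by linarith
        positivity
      have hfl := fld_init R H J hJ s0 u
      by_cases huW : u ∈ W0
      · rw [if_pos huW]
        refine le_trans (hh_le_abs _ _ hA) ?_
        rw [hfl]
        have hlt := (mem_filter.mp huW).2.2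
        have hne : (nb R u ∩ H).Nonempty := by
          by_contra hcon
          rw [Finset.not_nonempty_iff_eq_empty] at hcon
          rw [hcon] at hlt
          simp at hlt
          have : 0 ≤ c / 4 * m := by positivity
          linarith
        obtain ⟨h, hh⟩ := hne
        have hh' := mem_inter.mp hh
        have hdm : dg R u = m := (hHm h hh'.2 u (hsymm _ _ (mem_nb.mp hh'.1))).2
        rw [abs_div, abs_two]
        have : |∑ h ∈ nb R u ∩ H, s0 h| ≤ m := by
          refine le_trans (Finset.abs_sum_le_sum_abs _ _) ?_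
          have : ∑ h ∈ nb R u ∩ H, |s0 h| = (nb R u ∩ H).card := by
            rw [Finset.card_eq_sum_ones]
            push_cast
            apply Finset.sum_congr rfl
            intro w hw
            rcases hs0 w (mem_inter.mp hw).2 with h | h <;> rw [h] <;> norm_num
          rw [this]
          have h2 : (nb R u ∩ H).card ≤ m := by
            rw [← hdm]
            exact Finset.card_le_card Finset.inter_subset_left
          exact_mod_cast h2
        linarith
      · rw [if_neg huW]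
        have hle : ¬ (c / 4 * m < |(∑ h ∈ nb R u ∩ H, s0 h) / 2|) := by
          intro hlt
          exact huW (mem_filter.mpr ⟨mem_univ _, huH, hlt⟩)
        push Not at hle
        rw [hh_zero _ _ hA]
        rw [hfl]
        nlinarith
  refine le_trans (Finset.sum_le_sum (fun u _ => h2 u)) ?_
  rw [Finset.sum_ite_mem, Finset.univ_inter, Finset.sum_const, nsmul_eq_mul, mul_comm]

/-- a minimiser of the potential -/
theorem exists_min (R : V → V → Prop) (H : Finset V) (c J : ℝ) (s0 : V → ℝ)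
    (hs0 : ∀ h ∈ H, s0 h = 1 ∨ s0 h = -1) :
    ∃ s : V → ℝ, (∀ v, s v = 1 ∨ s v = -1 ∨ s v = 0) ∧ (∀ h ∈ H, s h ≠ 0) ∧
      ∀ t : V → ℝ, (∀ v, t v = 1 ∨ t v = -1 ∨ t v = 0) → (∀ h ∈ H, t h ≠ 0) →
        Pot R H c s0 J s ≤ Pot R H c s0 J t := by
  classical
  let S : Set (V → ℝ) := {s | (∀ v, s v ∈ ({1, -1, 0} : Set ℝ)) ∧ ∀ h ∈ H, s h ≠ 0}
  have hfin : S.Finite := by
    apply Set.Finite.subset (Set.Finite.pi' (fun _ : V => (Set.toFinite ({1, -1, 0} : Set ℝ))))
    intro s hs
    exact hs.1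
  have hne : S.Nonempty := by
    refine ⟨fun w => if w ∈ H then s0 w else 0, ?_, ?_⟩
    · intro v
      by_cases h : v ∈ H
      · simp only [if_pos h]
        rcases hs0 v h with h | h <;> rw [h] <;> simp
      · simp only [if_neg h]; simp
    · intro h hh
      simp only [if_pos hh]
      rcases hs0 h hh with h | h <;> rw [h] <;> norm_num
  obtain ⟨s, hs, hmin⟩ := Set.exists_min_image S (Pot R H c s0 J) hfin hne
  refine ⟨s, ?_, hs.2, ?_⟩
  · intro v
    have := hs.1 v
    simpa using this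
  · intro t ht htH
    apply hmin
    refine ⟨?_, htH⟩
    intro v
    have := ht v
    simpa using this

end

/-- the potential argument -/
theorem potential {V : Type} [Fintype V] [DecidableEq V] (R : V → V → Prop) (hsymm : ∀ u v, R u v → R v u)
    (hirr : ∀ v, ¬ R v v)
    (H : Finset V) (J : ℝ) (hJ : J = 1 ∨ J = -1) (m k : ℕ) (hk : 1 ≤ k) (c : ℝ) (hc : 0 < c)
    (hc8 : c ≤ 1 / 8)
    (hm : 4 / c ^ 2 ≤ m) (hdeg : ∀ v, m ≤ dg R v) (hH : ∀ h ∈ H, 216 * k ≤ dg R h)
    (hHm : ∀ h ∈ H, ∀ v, R h v → v ∉ H ∧ dg R v = m) (η : V → ℝ)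
    (hη : ∀ v, v ∉ H → (1 / 8 + c) * dg R v ≤ η v) (s0 : V → ℝ)
    (hs0 : ∀ h ∈ H, s0 h = 1 ∨ s0 h = -1) (W : ℕ)
    (hW : Set.ncard {v : V | v ∉ H ∧ c / 4 * m < |(∑ h ∈ nb R v ∩ H, s0 h) / 2|} ≤ W) :
    ∃ s q : V → ℝ,
      (∀ v, s v = 1 ∨ s v = -1 ∨ s v = 0) ∧ (∀ h ∈ H, s h ≠ 0) ∧
      (∀ v, s v ≠ 0 → q v = s v / 2) ∧ (∀ v, s v = 0 → |q v| ≤ 1 / 4) ∧
      (∀ v, s v = 0 → |J * ∑ w ∈ nb R v, q w| ≤ η v) ∧
      (∀ v, v ∉ H → s v ≠ 0 → -η v ≤ s v * (J * ∑ w ∈ nb R v, q w)) ∧
      (∀ h ∈ H, 9 * k ≤ ((nb R h).filter (fun w => J * s h * s w ≠ -1)).card) ∧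
      (∃ M : ℕ, (M : ℝ) ≤ 4 / (3 * c) * m * W ∧
        Set.ncard {v : V | v ∉ H ∧ s v ≠ 0} ≤ M ∧ Set.ncard {h : V | h ∈ H ∧ s h ≠ s0 h} ≤ M ∧
        Set.ncard {v : V | v ∉ H ∧ s v = 0 ∧ q v ≠ 0} ≤ W + M) := by
  classical
  have hm1 : 1 ≤ m := by
    rcases Nat.eq_zero_or_pos m with h | h
    · rw [h, Nat.cast_zero] at hm
      have : 0 < 4 / c ^ 2 := by positivity
      linarith
    · exact h
  have hmR : (1 : ℝ) ≤ m := by exact_mod_cast hm1
  obtain ⟨s, hs, hsH, hmin⟩ := exists_min R H c J s0 hs0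
  have hupd : ∀ v a, (a = 1 ∨ a = -1) →
      Pot R H c s0 J s ≤ Pot R H c s0 J (Function.update s v a) := by
    intro v a ha
    apply hmin
    · intro w
      by_cases h : w = v
      · subst h
        rw [Function.update_self]
        rcases ha with h | h
        · exact Or.inl h
        · exact Or.inr (Or.inl h)
      · rw [Function.update_of_ne h]
        exact hs w
    · intro h hh
      by_cases h' : h = v
      · subst h'
        rw [Function.update_self]
        rcases ha with h | h <;> rw [h] <;> norm_num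
      · rw [Function.update_of_ne h']
        exact hsH h hh
  have hneg : ∀ v, s v ≠ 0 → (-s v = 1 ∨ -s v = -1) := by
    intro v hv
    rcases hs v with h | h | h
    · right; rw [h]
    · left; rw [h]; norm_num
    · exact absurd h hv
  have hq0 : ∀ v, s v ≠ 0 → qf R c J s v = s v / 2 := by
    intro v hv
    unfold qf
    rw [if_neg hv]
  set Fl := H.filter (fun h => s h ≠ s0 h) with hFl
  set F := univ.filter (fun v => v ∉ H ∧ s v ≠ 0) with hF
  set W0 := univ.filter (fun v : V => v ∉ H ∧ c / 4 * m < |(∑ h ∈ nb R v ∩ H, s0 h) / 2|) with hW0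
  have hW0' : W0.card ≤ W := by
    have e : {v : V | v ∉ H ∧ c / 4 * m < |(∑ h ∈ nb R v ∩ H, s0 h) / 2|} = (W0 : Set V) := by
      ext v; simp [hW0]
    rw [e, Set.ncard_coe_finset] at hW
    exact hW
  refine ⟨s, qf R c J s, hs, hsH, hq0, fun v hv => qf_abs R c J hc (fun v => le_trans hm1 (hdeg v)) s v hv,
    ?_, ?_, ?_, ∑ v ∈ F, dg R v + ∑ h ∈ Fl, dg R h, ?_, ?_, ?_, ?_⟩
  · intro v hv
    have hvH : v ∉ H := fun h => hsH v h hv
    have h1 := M1 R hsymm hirr H c hc s0 J hJ m hm hc8 hdeg s hsH v hv 1 (Or.inl rfl)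
      (hupd v 1 (Or.inl rfl))
    have h2 := M1 R hsymm hirr H c hc s0 J hJ m hm hc8 hdeg s hsH v hv (-1) (Or.inr rfl)
      (hupd v (-1) (Or.inr rfl))
    have h3 := hη v hvH
    rw [abs_le]
    constructor <;> linarith
  · intro v hvH hv
    have h1 := M2 R hsymm hirr H c hc s0 J hJ m hm hc8 hdeg s hs hsH v hvH hv
      (hupd v (-s v) (hneg v hv))
    have h3 := hη v hvH
    linarith
  · intro h hh
    have h1 := M3 R hsymm hirr H c hc s0 J hJ (fun v => le_trans hm1 (hdeg v)) s hs hsH h hh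
      (hupd h (-s h) (hneg h (hsH h hh)))
    have h2 := hH h hh
    have h3 : dg R h ≤ 16 * ((nb R h).filter (fun w => J * s h * s w ≠ -1)).card := by
      exact_mod_cast h1
    omega
  · -- bound for M
    have hlow := Pot_lower R hsymm H J hJ m hm1 c hc hc8 hdeg hHm s0 hs0 s hs hsH
    have hupp := Pot_upper R hsymm H J hJ m hm1 c hc hdeg hHm s0 hs0
    have hle : Pot R H c s0 J s ≤ Pot R H c s0 J (fun w => if w ∈ H then s0 w else 0) := by
      apply hmin
      · intro v
        by_cases h : v ∈ H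
        · simp only [if_pos h]
          rcases hs0 v h with h | h
          · exact Or.inl h
          · exact Or.inr (Or.inl h)
        · simp only [if_neg h]; simp
      · intro h hh
        simp only [if_pos hh]
        rcases hs0 h hh with h | h <;> rw [h] <;> norm_num
    have hWR : (W0.card : ℝ) ≤ W := by exact_mod_cast hW0'
    push_cast
    have hF0 : (0 : ℝ) ≤ ∑ v ∈ F, (dg R v : ℝ) := Finset.sum_nonneg (fun _ _ => Nat.cast_nonneg _)
    have hFl0 : (0 : ℝ) ≤ ∑ h ∈ Fl, (dg R h : ℝ) := Finset.sum_nonneg (fun _ _ => Nat.cast_nonneg _)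
    have h1 : 3 * c / 4 * (∑ v ∈ F, (dg R v : ℝ) + ∑ h ∈ Fl, (dg R h : ℝ)) ≤ m * W := by
      have h2 : 3 * c / 4 * ∑ h ∈ Fl, (dg R h : ℝ) ≤ 1 / 8 * ∑ h ∈ Fl, (dg R h : ℝ) :=
        mul_le_mul_of_nonneg_right (by linarith) hFl0
      have h3 : (m : ℝ) * (W0.card : ℝ) ≤ m * W := mul_le_mul_of_nonneg_left hWR (by linarith)
      nlinarith
    have h4 : 4 / (3 * c) * m * W = (m * W) / (3 * c / 4) := by
      field_simp
    rw [h4, le_div_iff₀ (by positivity)]
    linarith
  · -- count of forced vertices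
    have e : {v : V | v ∉ H ∧ s v ≠ 0} = (F : Set V) := by
      ext v; simp [hF]
    rw [e, Set.ncard_coe_finset]
    have : F.card ≤ ∑ v ∈ F, dg R v := by
      rw [Finset.card_eq_sum_ones]
      exact Finset.sum_le_sum (fun v _ => le_trans hm1 (hdeg v))
    omega
  · have e : {h : V | h ∈ H ∧ s h ≠ s0 h} = (Fl : Set V) := by
      ext v; simp [hFl]
    rw [e, Set.ncard_coe_finset]
    have : Fl.card ≤ ∑ v ∈ Fl, dg R v := by
      rw [Finset.card_eq_sum_ones]
      exact Finset.sum_le_sum (fun v _ => le_trans hm1 (hdeg v))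
    omega
  · -- count of active vertices
    have hsub : {v : V | v ∉ H ∧ s v = 0 ∧ qf R c J s v ≠ 0}
        ⊆ ((W0 ∪ (F.biUnion (fun u => nb R u) ∪ Fl.biUnion (fun u => nb R u)) : Finset V) : Set V) := by
      intro v hv
      obtain ⟨hvH, hv0, hvq⟩ := hv
      by_contra hcon
      simp only [coe_union, Set.mem_union, mem_coe, mem_biUnion, not_or, not_exists, not_and] at hcon
      obtain ⟨hvW, hvF, hvFl⟩ := hcon
      apply hvq
      unfold qf
      rw [if_pos hv0]
      have hdu : (m : ℝ) ≤ dg R v := by exact_mod_cast hdeg v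
      have hA : (0 : ℝ) < c / 4 * dg R v := by
        have : (0 : ℝ) < dg R v := by linarith
        positivity
      have hfe : fld R J s v = fld R J (fun w => if w ∈ H then s0 w else 0) v := by
        unfold fld
        congr 1
        apply Finset.sum_congr rfl
        intro w hw
        have hwv : v ∈ nb R w := mem_nb.mpr (hsymm _ _ (mem_nb.mp hw))
        by_cases hwH : w ∈ H
        · simp only [if_pos hwH]
          by_contra hne
          exact hvFl w (mem_filter.mpr ⟨hwH, hne⟩) hwv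
        · simp only [if_neg hwH]
          by_contra hne
          exact hvF w (mem_filter.mpr ⟨mem_univ _, hwH, hne⟩) hwv
      rw [hfe, hy_zero _ _ hA]
      · norm_num
      · rw [fld_init R H J hJ s0 v]
        have hle : ¬ (c / 4 * m < |(∑ h ∈ nb R v ∩ H, s0 h) / 2|) := by
          intro hlt
          exact hvW (mem_filter.mpr ⟨mem_univ _, hvH, hlt⟩)
        push Not at hle
        nlinarith
    refine le_trans (Set.ncard_le_ncard hsub (Finset.finite_toSet _)) ?_
    rw [Set.ncard_coe_finset]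
    refine le_trans (Finset.card_union_le _ _) ?_
    have h1 : (F.biUnion (fun u => nb R u) ∪ Fl.biUnion (fun u => nb R u)).card
        ≤ ∑ v ∈ F, dg R v + ∑ h ∈ Fl, dg R h := by
      refine le_trans (Finset.card_union_le _ _) ?_
      exact Nat.add_le_add Finset.card_biUnion_le Finset.card_biUnion_le
    omega

end Pool.Agent.helper2.Bis
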