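import Pool.Agent.helper2.Bis.Pot3

set_option autoImplicit false

namespace Pool.Agent.helper2.Bis

open Finset

section
variable {V : Type} [Fintype V] [DecidableEq V]

/-- lower bound for the potential -/
theorem Pot_lower (R : V → V → Prop) (hsymm : ∀ u v, R u v → R v u)
    (H : Finset V) (J : ℝ) (hJ : J = 1 ∨ J = -1) (m : ℕ) (hm : 1 ≤ m) (c : ℝ) (hc : 0 < c)
    (hc8 : c ≤ 1 / 8) (hdeg : ∀ v, m ≤ dg R v)
    (hHm : ∀ h ∈ H, ∀ v, R h v → v ∉ H ∧ dg R v = m) (s0 : V → ℝ)
    (hs0 : ∀ h ∈ H, s0 h = 1 ∨ s0 h = -1)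
    (s : V → ℝ) (hs : ∀ v, s v = 1 ∨ s v = -1 ∨ s v = 0) (hsH : ∀ h ∈ H, s h ≠ 0) :
    3 * c / 4 * ∑ v ∈ univ.filter (fun v => v ∉ H ∧ s v ≠ 0), (dg R v : ℝ)
      + 1 / 8 * ∑ h ∈ H.filter (fun h => s h ≠ s0 h), (dg R h : ℝ)
      - m / 2 * (univ.filter (fun v : V => v ∉ H ∧ c / 4 * m < |(∑ h ∈ nb R v ∩ H, s0 h) / 2|)).card
      ≤ Pot R H c s0 J s := by
  classical
  have hJabs : |J| = 1 := by rcases hJ with h | h <;> rw [h] <;> norm_num
  have hmR : (1 : ℝ) ≤ m := by exact_mod_cast hm
  set Fl := H.filter (fun h => s h ≠ s0 h) with hFl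
  set F := univ.filter (fun v => v ∉ H ∧ s v ≠ 0) with hF
  set W0 := univ.filter (fun v : V => v ∉ H ∧ c / 4 * m < |(∑ h ∈ nb R v ∩ H, s0 h) / 2|) with hW0
  set b : V → ℝ := fun v => |(∑ h ∈ nb R v ∩ H, s0 h) / 2| with hb
  set fl : V → ℝ := fun v => ((nb R v ∩ Fl).card : ℝ) with hfl
  have hsH' : ∀ h ∈ H, s h = 1 ∨ s h = -1 := by
    intro h hh
    rcases hs h with h1 | h1 | h1
    · exact Or.inl h1
    · exact Or.inr h1
    · exact absurd h1 (hsH h hh)
  -- energy bound
  have hE : En R J s ≤ ∑ v ∈ F, ((dg R v : ℝ) / 4 + 3 / 4 * fl v + b v) := by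
    rw [En_split R hsymm H (fun h hh v hv => (hHm h hh v hv).1), Finset.sum_div,
      ← Finset.sum_add_distrib]
    have hz : ∀ v, v ∉ F → (if v ∈ H then (0 : ℝ) else s v) = 0 := by
      intro v hv
      simp only [hF, mem_filter, mem_univ, true_and, not_and, not_not] at hv
      by_cases h : v ∈ H
      · rw [if_pos h]
      · rw [if_neg h]; exact hv h
    rw [← Finset.sum_subset (subset_univ F) (by
      intro v _ hv
      rw [hz v hv]; ring)]
    apply Finset.sum_le_sum
    intro v hv
    have hv' := (mem_filter.mp hv).2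
    rw [if_neg hv'.1]
    have hsv : |s v| = 1 := by
      rcases hs v with h | h | h
      · rw [h]; norm_num
      · rw [h]; norm_num
      · exact absurd h hv'.2
    have h1 : |fld R J (fun w => if w ∈ H then 0 else s w) v| ≤ ((nb R v \ H).card : ℝ) / 2 := by
      unfold fld
      rw [abs_mul, abs_div, hJabs, abs_two]
      have : |∑ w ∈ nb R v, (if w ∈ H then (0 : ℝ) else s w)| ≤ ((nb R v \ H).card : ℝ) := by
        refine le_trans (Finset.abs_sum_le_sum_abs _ _) ?_
        have h2 : ∀ w ∈ nb R v, |if w ∈ H then (0 : ℝ) else s w|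
            ≤ if w ∉ H then (1 : ℝ) else 0 := by
          intro w _
          by_cases h : w ∈ H
          · simp [h]
          · rw [if_neg h, if_pos h]
            rcases hs w with h | h | h <;> rw [h] <;> norm_num
        refine le_trans (Finset.sum_le_sum h2) ?_
        rw [Finset.sum_boole]
        have : (nb R v).filter (fun w => w ∉ H) = nb R v \ H := by
          ext x; simp only [mem_filter, mem_sdiff]
        rw [this]
      linarith
    have h2 := hub_field R H s0 J hJ s hsH' hs0 v
    have h3 : (nb R v \ H).card + (nb R v ∩ H).card = (nb R v).card := by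
      rw [add_comm]
      exact Finset.card_inter_add_card_sdiff _ _
    have h4 : (nb R v ∩ Fl).card ≤ (nb R v ∩ H).card :=
      Finset.card_le_card (Finset.inter_subset_inter_left (Finset.filter_subset _ _))
    have h5 : ((nb R v \ H).card : ℝ) + fl v ≤ dg R v := by
      have : (nb R v \ H).card + (nb R v ∩ Fl).card ≤ dg R v := by
        unfold dg; omega
      simp only [hfl]
      exact_mod_cast this
    have h6 : s v * fld R J (fun w => if w ∈ H then 0 else s w) v
        ≤ |fld R J (fun w => if w ∈ H then 0 else s w) v| := by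
      refine le_trans (le_abs_self _) ?_
      rw [abs_mul, hsv, one_mul]
    have h7 : s v * fld R J (fun w => if w ∈ H then s w else 0) v
        ≤ |fld R J (fun w => if w ∈ H then s w else 0) v| := by
      refine le_trans (le_abs_self _) ?_
      rw [abs_mul, hsv, one_mul]
    have h8 : |fld R J (fun w => if w ∈ H then s w else 0) v| ≤ b v + fl v := h2
    linarith
  -- sum of local terms
  have hT : ∑ h ∈ Fl, 7 / 8 * (dg R h : ℝ) + ∑ v ∈ F, (1 / 4 + c) * (dg R v : ℝ)
      ≤ ∑ u, Tm R H c s0 u (s u) (fld R J s u) := by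
    have hdisj : Disjoint Fl F := by
      rw [Finset.disjoint_left]
      intro x hx hx'
      exact (mem_filter.mp hx').2.1 (mem_filter.mp hx).1
    have h1 : ∑ u ∈ Fl ∪ F, Tm R H c s0 u (s u) (fld R J s u)
        ≤ ∑ u, Tm R H c s0 u (s u) (fld R J s u) := by
      apply Finset.sum_le_sum_of_subset_of_nonneg (subset_univ _)
      intro u _ _
      unfold Tm
      have hA : (0 : ℝ) < c / 4 * dg R u := by
        have : (1 : ℝ) ≤ dg R u := by exact_mod_cast le_trans hm (hdeg u)
        positivity
      split_ifs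
      · exact le_refl _
      · positivity
      · exact hh_nonneg _ _ hA
      · positivity
    rw [Finset.sum_union hdisj] at h1
    have h2 : ∑ u ∈ Fl, Tm R H c s0 u (s u) (fld R J s u) = ∑ h ∈ Fl, 7 / 8 * (dg R h : ℝ) := by
      apply Finset.sum_congr rfl
      intro u hu
      have hu' := mem_filter.mp hu
      unfold Tm
      rw [if_pos hu'.1, if_neg hu'.2]
    have h3 : ∑ u ∈ F, Tm R H c s0 u (s u) (fld R J s u)
        = ∑ v ∈ F, (1 / 4 + c) * (dg R v : ℝ) := by
      apply Finset.sum_congr rfl
      intro u hu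
      have hu' := (mem_filter.mp hu).2
      unfold Tm
      rw [if_neg hu'.1, if_neg hu'.2]
    rw [h2, h3] at h1
    exact h1
  -- flipped hubs
  have hflsum : ∑ v ∈ F, fl v ≤ ∑ h ∈ Fl, (dg R h : ℝ) := fl_count R hsymm F Fl
  -- unlucky vertices
  have hbsum : ∑ v ∈ F, b v ≤ c / 4 * ∑ v ∈ F, (dg R v : ℝ) + m / 2 * (W0.card : ℝ) := by
    have h1 : ∀ v ∈ F, b v ≤ c / 4 * (dg R v : ℝ) + (if v ∈ W0 then (m : ℝ) / 2 else 0) := by
      intro v hv
      have hv' := (mem_filter.mp hv).2
      have hdv : (m : ℝ) ≤ dg R v := by exact_mod_cast hdeg v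
      by_cases hvW : v ∈ W0
      · rw [if_pos hvW]
        have hlt : c / 4 * m < b v := (mem_filter.mp hvW).2.2
        have hne : (nb R v ∩ H).Nonempty := by
          by_contra hcon
          rw [Finset.not_nonempty_iff_eq_empty] at hcon
          simp only [hb] at hlt
          rw [hcon] at hlt
          simp at hlt
          have : 0 ≤ c / 4 * m := by positivity
          linarith
        obtain ⟨h, hh⟩ := hne
        have hh' := mem_inter.mp hh
        have hdm : dg R v = m := (hHm h hh'.2 v (hsymm _ _ (mem_nb.mp hh'.1))).2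
        have hbv : b v ≤ m / 2 := by
          simp only [hb]
          rw [abs_div, abs_two]
          have : |∑ h ∈ nb R v ∩ H, s0 h| ≤ m := by
            refine le_trans (Finset.abs_sum_le_sum_abs _ _) ?_
            have : ∑ h ∈ nb R v ∩ H, |s0 h| = (nb R v ∩ H).card := by
              rw [Finset.card_eq_sum_ones]
              push_cast
              apply Finset.sum_congr rfl
              intro w hw
              rcases hs0 w (mem_inter.mp hw).2 with h | h <;> rw [h] <;> norm_num
            rw [this]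
            have h2 : (nb R v ∩ H).card ≤ m := by
              rw [← hdm]
              exact Finset.card_le_card Finset.inter_subset_left
            exact_mod_cast h2
          linarith
        have : 0 ≤ c / 4 * (dg R v : ℝ) := by positivity
        linarith
      · rw [if_neg hvW, add_zero]
        have : ¬ (c / 4 * m < b v) := by
          intro hlt
          exact hvW (mem_filter.mpr ⟨mem_univ _, hv'.1, hlt⟩)
        push Not at this
        nlinarith
    refine le_trans (Finset.sum_le_sum h1) ?_
    rw [Finset.sum_add_distrib, ← Finset.mul_sum, Finset.sum_ite_mem]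
    have h2 : ∑ _i ∈ F ∩ W0, (m : ℝ) / 2 ≤ m / 2 * (W0.card : ℝ) := by
      rw [Finset.sum_const, nsmul_eq_mul, mul_comm]
      apply mul_le_mul_of_nonneg_left _ (by positivity)
      exact_mod_cast Finset.card_le_card Finset.inter_subset_right
    linarith
  unfold Pot
  rw [Finset.sum_add_distrib, Finset.sum_add_distrib, ← Finset.mul_sum] at hE
  rw [← Finset.mul_sum, ← Finset.mul_sum] at hT
  have e1 : ∑ v ∈ F, (dg R v : ℝ) / 4 = 1 / 4 * ∑ v ∈ F, (dg R v : ℝ) := by
    rw [← Finset.sum_div]; ring
  rw [e1] at hE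
  nlinarith

end

end Pool.Agent.helper2.Bis
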